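import Pool.Agent.Y699.RN.Sg2

/-!
# Simultaneous non-vanishing of two quadratic twists fails

Let `f` be the newform of weight 2 and level 11 attached to the elliptic curve
`E : y² + y = x³ - x² - 10 x - 20` (that is `X_0(11)`), and let `χ` be a quadratic character with
`χ(-1) = -1` and `χ(11) = 1`, for example `χ = (-7 / ·)`.  We prove that for every quadratic character
`ψ`, of any conductor, at least one of the central values of `L(f ⊗ ψ, s)` and `L(f ⊗ χ ψ, s)`
vanishes, where `χ ψ` is the primitive character inducing the product.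

The reason: the sign in the functional equation of `L(f ⊗ ψ, s)` is `ψ(-11)` if `11` does not divide
the conductor of `ψ`, and `-ψ(-1)` if it does; so the signs for `ψ` and `χ ψ` are opposite for all
`ψ`.
-/

set_option autoImplicit false

open UpperHalfPlane MatrixGroups CongruenceSubgroup

namespace Pool.Agent.Results.MP_d17ed7_nt.EveryQuadraticTwist

/-- The `n`-th Fourier coefficient of `f`. -/
noncomputable def coef (f : CuspForm (Gamma0 11 : Subgroup (GL (Fin 2) ℝ)) 2) (n : ℕ) : ℂ :=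
  (qExpansion 1 f).coeff n

/-- `f` is the newform of weight 2 and level 11 attached to the elliptic curve
`E : y² + y = x³ - x² - 10 x - 20` of conductor 11: the Fourier coefficients satisfy `c(1) = 1` and the
Hecke relations `c(mn) = c(m) c(n)` for coprime `m`, `n` and
`c(p^(j+2)) = c(p) c(p^(j+1)) - p c(p^j)`, without the last term if `p = 11` (`f` is a normalized
eigenform of all Hecke operators), `f(-1/(11τ)) = -11 τ² f(τ)`, and `c(p)` is for every prime `p` equal
to `p` minus the number of solutions `(x, y)` of the equation of `E` modulo `p`. -/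
structure IsNewformOfCurve (f : CuspForm (Gamma0 11 : Subgroup (GL (Fin 2) ℝ)) 2) : Prop where
  one : coef f 1 = 1
  mul : ∀ m n : ℕ, Nat.Coprime m n → coef f (m * n) = coef f m * coef f n
  pow : ∀ p j : ℕ, p.Prime → coef f (p ^ (j + 2)) = coef f p * coef f (p ^ (j + 1)) -
      (if p = 11 then 0 else (p : ℂ) * coef f (p ^ j))
  fricke : ∀ τ τ' : ℍ, (τ' : ℂ) * (11 * (τ : ℂ)) = -1 → f τ' = -11 * (τ : ℂ) ^ 2 * f τ
  points : ∀ p : ℕ, p.Prime → coef f p = (p : ℂ) - (Nat.card {P : ZMod p × ZMod p //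
      P.2 ^ 2 + P.2 = P.1 ^ 3 - P.1 ^ 2 - 10 * P.1 - 20} : ℂ)

/-- `ψ` is a quadratic character: a primitive Dirichlet character of order exactly 2. -/
def IsQuadratic {m : ℕ} (ψ : DirichletCharacter ℂ m) : Prop := ψ.IsPrimitive ∧ orderOf ψ = 2

open Classical in
/-- `L` is the standard `L`-function of `f ⊗ ψ`, for a primitive character `ψ`: an entire function,
which for `Re s > 3/2` is the Euler product `∏_p (1 - ψ(p) c(p) p^(-s) + ψ(p)² p^(1-2s))⁻¹`, without
the last term for `p = 11`.  (The factor is 1 at the primes dividing the conductor of `ψ`.)  The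
functional equation relates `s` and `2 - s`, and the central point is `s = 1`; in the analytic
normalization this is the point `1/2`. -/
def IsTwistedL (f : CuspForm (Gamma0 11 : Subgroup (GL (Fin 2) ℝ)) 2) {m : ℕ}
    (ψ : DirichletCharacter ℂ m) (L : ℂ → ℂ) : Prop :=
  Differentiable ℂ L ∧ ∀ s : ℂ, 3 / 2 < s.re →
    HasProd (fun p : ℕ => if p.Prime then
      (1 - ψ (p : ZMod m) * coef f p * (p : ℂ) ^ (-s) +
        (if p = 11 then 0 else ψ (p : ZMod m) ^ 2 * (p : ℂ) ^ (1 - 2 * s)))⁻¹ else 1) (L s)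

theorem lf_eq {m : ℕ} (ψ : DirichletCharacter ℂ m) (s : ℂ) {p : ℕ} (hp : p.Prime) :
    Pool.Agent.Y18.BSD.lf 11 (Pool.Agent.Y18.BSD.co Pool.Agent.W97.TW.f11) ψ s p =
      1 - ψ (p : ZMod m) * coef Pool.Agent.W97.TW.f11 p * (p : ℂ) ^ (-s) +
        (if p = 11 then 0 else ψ (p : ZMod m) ^ 2 * (p : ℂ) ^ (1 - 2 * s)) := by
  unfold Pool.Agent.Y18.BSD.lf
  have : p ∣ 11 ↔ p = 11 := Nat.prime_dvd_prime_iff_eq hp (by norm_num)
  simp only [this]
  rfl

/-- The `L`-function exists. -/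
theorem exists_twistedL {m : ℕ} [NeZero m] (ψ : DirichletCharacter ℂ m) (hψ : ψ.IsPrimitive)
    (h2 : ψ ^ 2 = 1) : ∃ L : ℂ → ℂ, IsTwistedL Pool.Agent.W97.TW.f11 ψ L ∧
      (Pool.Agent.Y699.RN.sg ψ = -1 → L 1 = 0) := by
  classical
  obtain ⟨L, h1, h3, h4⟩ := Pool.Agent.Y699.RN.exists_L11 ψ hψ h2
  refine ⟨L, ⟨h1, fun s hs => ?_⟩, h4⟩
  have h5 := Pool.Agent.Y18.BSD.Eleven.isFormOf.cf.euler ψ hs
  rw [h3 s hs]
  refine (congrArg (fun g => HasProd g _) (funext fun p => ?_)).mp h5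
  by_cases hp : p.Prime
  · rw [if_pos hp, if_pos hp, lf_eq ψ s hp]
  · rw [if_neg hp, if_neg hp]

/-- The `L`-function is unique. -/
theorem unique {f : CuspForm (Gamma0 11 : Subgroup (GL (Fin 2) ℝ)) 2} {m : ℕ}
    {ψ : DirichletCharacter ℂ m} {F G : ℂ → ℂ} (hF : IsTwistedL f ψ F) (hG : IsTwistedL f ψ G) :
    F = G := by
  have h1 : ∀ s : ℂ, (3 : ℝ) / 2 < s.re → F s = G s := fun s hs => (hF.2 s hs).unique (hG.2 s hs)
  have hA : AnalyticOnNhd ℂ F Set.univ := fun s _ => hF.1.analyticAt s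
  have hB : AnalyticOnNhd ℂ G Set.univ := fun s _ => hG.1.analyticAt s
  have hev : F =ᶠ[nhds (2 : ℂ)] G := by
    have hopen : IsOpen {s : ℂ | (3 : ℝ) / 2 < s.re} :=
      isOpen_lt continuous_const Complex.continuous_re
    filter_upwards [hopen.mem_nhds (show (2 : ℂ) ∈ {s : ℂ | (3 : ℝ) / 2 < s.re} by
      show (3 : ℝ) / 2 < (2 : ℂ).re
      norm_num)] with s hs
    exact h1 s hs
  exact hA.eq_of_eventuallyEq hB hev

/-- The newform. -/
theorem isNewformOfCurve : IsNewformOfCurve Pool.Agent.W97.TW.f11 where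
  one := Pool.Agent.Y702.M.newf.one
  mul := Pool.Agent.Y702.M.newf.mul
  pow := by
    intro p j hp
    have h := Pool.Agent.Y18.BSD.Eleven.isFormOf.pow p j hp
    have : p ∣ 11 ↔ p = 11 := Nat.prime_dvd_prime_iff_eq hp (by norm_num)
    simp only [this] at h
    exact h
  fricke := by
    intro τ τ' h
    have e := Pool.Agent.Y702.M.newf.fricke τ τ' (by exact_mod_cast h)
    rw [e]
    have e1 : (((Real.sqrt ((11 : ℕ) : ℝ) : ℝ) : ℂ) * (τ : ℂ) / Complex.I) ^ (2 : ℤ) =
        -(11 * (τ : ℂ) ^ 2) := by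
      have hsq : ((Real.sqrt ((11 : ℕ) : ℝ) : ℝ) : ℂ) ^ 2 = 11 := by
        have h1 : (Real.sqrt ((11 : ℕ) : ℝ)) ^ 2 = ((11 : ℕ) : ℝ) := Real.sq_sqrt (by positivity)
        have h2 := congrArg (fun x : ℝ => (x : ℂ)) h1
        push_cast at h2 ⊢
        exact h2
      rw [zpow_ofNat, div_pow, mul_pow, hsq, Complex.I_sq]
      ring
    rw [e1]
    push_cast
    ring
  points := by
    intro p hp
    have h := Pool.Agent.Y702.M.cc_eq hp
    have e : Pool.Agent.W97.MT.affCount Pool.Agent.Y702.E11 p =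
        Nat.card {P : ZMod p × ZMod p //
          P.2 ^ 2 + P.2 = P.1 ^ 3 - P.1 ^ 2 - 10 * P.1 - 20} := by
      unfold Pool.Agent.W97.MT.affCount
      refine Nat.card_congr (Equiv.subtypeEquivRight fun P => ?_)
      rw [WeierstrassCurve.Affine.equation_iff]
      simp only [Pool.Agent.Y702.E11, WeierstrassCurve.map, map_one, map_zero, map_neg, map_ofNat]
      constructor <;> intro h <;> linear_combination h
    unfold coef
    refine Eq.trans h ?_
    unfold Pool.Agent.W97.MT.ap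
    rw [e]
    push_cast
    rfl

theorem sq_of_quadratic {m : ℕ} {ψ : DirichletCharacter ℂ m} (h : IsQuadratic ψ) : ψ ^ 2 = 1 := by
  have := pow_orderOf_eq_one ψ
  rwa [h.2] at this

/-- The square of the product character is trivial. -/
theorem primitive_mul_sq {q m : ℕ} [NeZero q] [NeZero m] {χ : DirichletCharacter ℂ q}
    {ψ : DirichletCharacter ℂ m} (hχ : χ ^ 2 = 1) (hψ : ψ ^ 2 = 1) :
    (χ.primitive_mul ψ) ^ 2 = 1 := by
  have : NeZero (Nat.lcm q m) := ⟨Nat.lcm_ne_zero (NeZero.ne q) (NeZero.ne m)⟩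
  apply DirichletCharacter.changeLevel_injective (DirichletCharacter.conductor_dvd_level (χ.mul ψ))
  rw [map_pow, map_one]
  have h := DirichletCharacter.changeLevel_primitiveCharacter (χ.mul ψ)
  rw [DirichletCharacter.mul_def, h]
  unfold DirichletCharacter.mul
  rw [mul_pow, ← map_pow, ← map_pow, hχ, hψ, map_one, map_one, one_mul]

theorem seven_aux : ¬ IsSquare (-1 : ZMod 7) ∧ (11 : ZMod 7) = 2 ^ 2 ∧ (2 : ZMod 7) ≠ 0 := by
  decide

/-- The Legendre symbol modulo 7, `n ↦ (n / 7) = (-7 / n)`. -/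
theorem exists_chi : ∃ χ : DirichletCharacter ℂ 7, IsQuadratic χ ∧ χ (-1) = -1 ∧ χ 11 = 1 := by
  have : Fact (Nat.Prime 7) := ⟨by norm_num⟩
  set χ : DirichletCharacter ℂ 7 := (quadraticChar (ZMod 7)).ringHomComp (Int.castRingHom ℂ) with hχ
  have hval : ∀ a : ZMod 7, χ a = ((quadraticChar (ZMod 7) a : ℤ) : ℂ) := fun a => rfl
  have h1 : χ (-1) = -1 := by
    rw [hval]
    have : quadraticChar (ZMod 7) (-1) = -1 :=
      quadraticChar_neg_one_iff_not_isSquare.2 seven_aux.1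
    rw [this]
    norm_num
  have h2 : χ 11 = 1 := by
    rw [hval]
    have : quadraticChar (ZMod 7) 11 = 1 := by
      rw [seven_aux.2.1]
      exact quadraticChar_sq_one' seven_aux.2.2
    rw [this]
    norm_num
  have hne : χ ≠ 1 := by
    intro h
    rw [h, MulChar.one_apply isUnit_neg_one] at h1
    norm_num at h1
  have hsq : χ ^ 2 = 1 := by
    ext a
    rw [MulChar.pow_apply' _ two_ne_zero, MulChar.one_apply_coe, hval]
    have h3 : quadraticChar (ZMod 7) (a : ZMod 7) ^ 2 = 1 := quadraticChar_sq_one a.ne_zero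
    exact_mod_cast congrArg (fun z : ℤ => (z : ℂ)) h3
  refine ⟨χ, ⟨?_, ?_⟩, h1, h2⟩
  · rw [DirichletCharacter.isPrimitive_def]
    have h3 := DirichletCharacter.conductor_dvd_level χ
    rcases (Nat.dvd_prime (by norm_num : Nat.Prime 7)).1 h3 with h4 | h4
    · exact absurd (DirichletCharacter.eq_one_iff_conductor_eq_one.2 h4) hne
    · exact h4
  · exact orderOf_eq_prime hsq hne

/-- **Main theorem.**  Let `f` be the newform of weight 2 and level 11 of the elliptic curve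
`X_0(11)` and `χ` a quadratic character with `χ(-1) = -1` and `χ(11) = 1`; such characters exist, for
example `χ = (-7 / ·)`.  Then for every quadratic character `ψ` at least one of the numbers
`L(f ⊗ ψ, 1)` and `L(f ⊗ χ ψ, 1)` is zero. -/
theorem result : ∃ f : CuspForm (Gamma0 11 : Subgroup (GL (Fin 2) ℝ)) 2, IsNewformOfCurve f ∧
    (∃ χ : DirichletCharacter ℂ 7, IsQuadratic χ ∧ χ (-1) = -1 ∧ χ 11 = 1) ∧
    ∀ (q : ℕ) [NeZero q] (χ : DirichletCharacter ℂ q), IsQuadratic χ → χ (-1) = -1 → χ 11 = 1 →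
      ∀ (m : ℕ) [NeZero m] (ψ : DirichletCharacter ℂ m), IsQuadratic ψ →
        (∃ L : ℂ → ℂ, IsTwistedL f ψ L) ∧ (∃ L' : ℂ → ℂ, IsTwistedL f (χ.primitive_mul ψ) L') ∧
        ∀ L L' : ℂ → ℂ, IsTwistedL f ψ L → IsTwistedL f (χ.primitive_mul ψ) L' →
          L 1 * L' 1 = 0 := by
  refine ⟨Pool.Agent.W97.TW.f11, isNewformOfCurve, exists_chi, ?_⟩
  intro q _ χ hχ hodd h11 m _ ψ hψ
  have : NeZero (χ.mul ψ).conductor := by
    have : NeZero (Nat.lcm q m) := ⟨Nat.lcm_ne_zero (NeZero.ne q) (NeZero.ne m)⟩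
    exact ⟨DirichletCharacter.conductor_ne_zero _⟩
  have hχ2 := sq_of_quadratic hχ
  have hψ2 := sq_of_quadratic hψ
  obtain ⟨L₁, h1, h2⟩ := exists_twistedL ψ hψ.1 hψ2
  obtain ⟨L₂, h3, h4⟩ := exists_twistedL (χ.primitive_mul ψ)
    (DirichletCharacter.primitive_mul_isPrimitive χ ψ) (primitive_mul_sq hχ2 hψ2)
  refine ⟨⟨L₁, h1⟩, ⟨L₂, h3⟩, fun L L' hL hL' => ?_⟩
  rw [unique hL h1, unique hL' h3]
  have hs := Pool.Agent.Y699.RN.sg_mul χ ψ hχ.1 hχ2 hodd h11 hψ.1
  have hv : Pool.Agent.Y699.RN.sg ψ = 1 ∨ Pool.Agent.Y699.RN.sg ψ = -1 :=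
    Pool.Agent.Y699.RN.sg_val ψ hψ2
  rcases hv with h | h
  · rw [h4 (by rw [hs, h]), mul_zero]
  · rw [h2 h, zero_mul]

end Pool.Agent.Results.MP_d17ed7_nt.EveryQuadraticTwist
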