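import Pool.Agent.Y17.X.Sel
import Pool.Agent.Y17.X.Joint
import Pool.Agent.Y17.X.Inj
import Pool.Agent.Y687.JQ.Fin

/-!
# Simultaneous non-vanishing of any number of quadratic twists, for infinitely many newforms

`E^M : y² = x³ + 5805 M² x - 285714 M³` are the quadratic twists of the non-CM curve `X_0(14)`, and
`f_M` is the newform of `E^M`. The class `Adm` consists of the squarefree `D = 1 mod 4` of any sign
which are squares modulo `7`, prime to `3`, and all prime factors of which split completely in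
`ℚ(i, √2, √-7)` or are inert in `ℚ(√2)` and in `ℚ(√-7)`; it is a group under `star`, the squarefree part
of the product. Let `χ_m` be the character of `ℚ(√m)`, so that `f_M ⊗ χ_m` is the form of the curve
`E^(star m M)`. For all `M` in the class and every finite set `H` of elements of the class all the
values `L(f_M ⊗ χ_m ψ, 1)`, `m ∈ H`, are different from zero for at least the proportion `c ^ #H`,
`c = ∏_{i ≥ 0} (1 - 2^{-(2i+1)}) = 0.4194...`, of the characters `ψ = χ_D` with `D` in the class, real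
and imaginary ones.
-/

set_option autoImplicit false

open Finset Filter

namespace Pool.Agent.Results.MP_d17ed7_nt.ManyTwistsAtOnce

/-- coefficients of the twist `E^D : y² = x³ + A D x + B D` of `E = X_0(14)` -/
def A (D : ℤ) : ℤ := 5805 * D ^ 2

/-- coefficients of the twist `E^D : y² = x³ + A D x + B D` of `E = X_0(14)` -/
def B (D : ℤ) : ℤ := -285714 * D ^ 3

/-- the curve `E^D` over `ℚ` -/
def E (D : ℤ) : WeierstrassCurve ℚ :=
  { a₁ := 0, a₂ := 0, a₃ := 0, a₄ := (A D : ℚ), a₆ := (B D : ℚ) }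

/-- `a_p = p + 1 - #E^D(𝔽_p)`, that is `p` minus the number of affine points modulo `p` -/
noncomputable def ap (D : ℤ) (p : ℕ) : ℤ := (p : ℤ) - Nat.card {z : ZMod p × ZMod p //
  z.2 ^ 2 = z.1 ^ 3 + (A D : ZMod p) * z.1 + (B D : ZMod p)}

/-- `F` is entire and is, for `Re s > 3/2`, the `L`-function of `E^D` without the Euler factors at the
primes dividing `42 D` -/
def IsL (D : ℤ) (F : ℂ → ℂ) : Prop :=
  Differentiable ℂ F ∧ ∀ s : ℂ, (3 : ℝ) / 2 < s.re →
    HasProd (fun p : {p : ℕ // p.Prime ∧ ¬ (p : ℤ) ∣ 42 * D} =>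
      (1 - (ap D p : ℂ) * (p : ℂ) ^ (-s) + (p : ℂ) ^ (1 - 2 * s))⁻¹) (F s)

/-- the analytic rank of `E^D` is `0` -/
def AnRankZero (D : ℤ) : Prop := (∃ F : ℂ → ℂ, IsL D F) ∧ ∀ F : ℂ → ℂ, IsL D F → F 1 ≠ 0

/-- `E^D(ℚ)` is finite and `Ш(E^D/ℚ)` has no element of order two -/
def RankZeroShaTwo (D : ℤ) : Prop :=
  Finite (E D).toAffine.Point ∧ ∀ x : Pool.Agent.TH841.SH.D.Sha (E D), 2 • x = 0 → x = 0

/-- primes which split completely in `ℚ(i, √2, √-7)` -/
def Split (p : ℕ) : Prop := p.Prime ∧ p % 8 = 1 ∧ (p % 7 = 1 ∨ p % 7 = 2 ∨ p % 7 = 4)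

/-- primes inert in `ℚ(√2)` and in `ℚ(√-7)` -/
def Inert (q : ℕ) : Prop :=
  q.Prime ∧ (q % 8 = 3 ∨ q % 8 = 5) ∧ (q % 7 = 3 ∨ q % 7 = 5 ∨ q % 7 = 6)

/-- the class of discriminants -/
def Adm (D : ℤ) : Prop := Squarefree D ∧ D % 4 = 1 ∧ (D % 7 = 1 ∨ D % 7 = 2 ∨ D % 7 = 4) ∧
  ∀ p : ℕ, p.Prime → (p : ℤ) ∣ D → p ≠ 3 ∧ (Split p ∨ Inert p)

/-- the squarefree part of the product of two squarefree numbers -/
def star (m D : ℤ) : ℤ := m * D / (Int.gcd m D : ℤ) ^ 2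

/-- the number of the `D` in the class with `s D > 0`, `|D| ≤ X` and the property `Q` -/
noncomputable def count (s : ℤ) (Q : ℤ → Prop) (X : ℕ) : ℕ :=
  Nat.card {D : ℤ // |D| ≤ X ∧ Adm D ∧ 0 < s * D ∧ Q D}

theorem result : (∀ m D : ℤ, Adm m → Adm D → Adm (star m D) ∧
      ∃ k : ℤ, k ≠ 0 ∧ m * D = star m D * k ^ 2) ∧
    ∃ c : ℝ, 0.4194 < c ∧ c < 0.4195 ∧
      Tendsto (fun n : ℕ => ∏ i ∈ range n, (1 - (1 / 2 : ℝ) ^ (2 * i + 1))) atTop (nhds c) ∧
      ∀ s : ℤ, (s = 1 ∨ s = -1) → ∀ M : ℤ, Adm M → ∀ H : Finset ℤ, (∀ m ∈ H, Adm m) →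
        ∀ ε : ℝ, 0 < ε → ∃ X₀ : ℕ, ∀ X : ℕ, X₀ ≤ X →
          0 < count s (fun _ => True) X ∧
          (c ^ H.card - ε) * (count s (fun _ => True) X : ℝ) ≤
            (count s (fun D => ∀ m ∈ H, AnRankZero (star (star m M) D)) X : ℝ) := by
  have hA : ∀ D : ℤ, Adm D ↔ Y687.MQ.AdmD D := fun D => Iff.rfl
  have hR : ∀ D : ℤ, RankZeroShaTwo D ↔ Y17.X.RZ D := by
    intro D
    unfold RankZeroShaTwo Y17.X.RZ
    refine and_congr Iff.rfl (forall_congr' fun x => ?_)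
    rw [two_nsmul]
    rfl
  -- the two definitions of the `L`-function
  have hL : ∀ (D : ℤ) (f : ℂ → ℂ), IsL D f ↔ (Differentiable ℂ f ∧
      (∀ s : ℂ, (3 : ℝ) / 2 < s.re →
        HasProd (fun l : {l : ℕ // l.Prime ∧
            ¬ ((l : ℤ) ∣ 2 * (4 * (5805 * D ^ 2) ^ 3 +
              27 * (-285714 * D ^ 3) ^ 2))} =>
          Y687.fac (5805 * D ^ 2) (-285714 * D ^ 3) s l)
          (f s))) := by
    intro D f
    have key : ∀ l : ℕ, l.Prime → (((l : ℤ) ∣ 42 * D) ↔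
        ((l : ℤ) ∣ 2 * (4 * (5805 * D ^ 2) ^ 3 + 27 * (-285714 * D ^ 3) ^ 2))) := by
      intro l hl
      have hli := Nat.prime_iff_prime_int.1 hl
      constructor
      · intro h1
        have e : (2 * (4 * (5805 * D ^ 2) ^ 3 + 27 * (-285714 * D ^ 3) ^ 2) : ℤ) =
            (2 ^ 14 * 3 ^ 11 * 7 ^ 2 * D ^ 5) * (42 * D) := by ring
        rw [e]
        exact Dvd.dvd.mul_left h1 _
      · intro h1
        refine hli.dvd_of_dvd_pow (n := 15) ?_
        have e : (42 * D) ^ 15 = (3 ^ 3 * 7 ^ 12 * D ^ 9) *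
            (2 * (4 * (5805 * D ^ 2) ^ 3 + 27 * (-285714 * D ^ 3) ^ 2)) := by ring
        rw [e]
        exact Dvd.dvd.mul_left h1 _
    unfold IsL Y687.fac
    refine and_congr Iff.rfl (forall_congr' fun s => imp_congr Iff.rfl ?_)
    have hset : (fun l : ℕ => l.Prime ∧ ¬ (l : ℤ) ∣ 42 * D) = fun l : ℕ => l.Prime ∧
        ¬ ((l : ℤ) ∣ 2 * (4 * (5805 * D ^ 2) ^ 3 + 27 * (-285714 * D ^ 3) ^ 2)) := by
      funext l
      refine propext (and_congr_right fun hl => not_congr (key l hl))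
    rw [hset]
    rfl
  have hQ : ∀ D : ℤ, Y687.MQ.AdmD D →
      ((AnRankZero D ∧ RankZeroShaTwo D) ↔ (Y687.MQ.matD D).det ≠ 0) := by
    intro D hD
    rw [hR]
    constructor
    · rintro ⟨-, h2⟩
      exact (Y17.X.rz_iff hD).1 h2
    · intro h
      obtain ⟨⟨f, hf, hfp, hf1⟩, -⟩ := Y687.MQ.WB_D hD h
      refine ⟨⟨⟨f, (hL D f).2 ⟨hf, hfp⟩⟩, fun g hg => ?_⟩, (Y17.X.rz_iff hD).2 h⟩
      obtain ⟨hg1, hg2⟩ := (hL D g).1 hg
      rw [Y687.unique_f hg1 hf hg2 hfp]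
      exact hf1
  obtain ⟨hC, -, -, hc1, hc2⟩ := Y948.CQ.t_C2
  refine ⟨fun m D hm hD => ⟨(Y17.X.star_adm hm hD).1, ?_⟩, Y703.CQ.c2, hc1, hc2, ?_, ?_⟩
  · obtain ⟨g, a, b, hg, e1, e2, -, e3⟩ := Y17.X.star_eq D hm.1.ne_zero
    refine ⟨g, hg.ne', ?_⟩
    calc m * D = (g * a) * (g * b) := congrArg₂ (· * ·) e1 e2
      _ = a * b * g ^ 2 := by ring
      _ = star m D * g ^ 2 := congrArg (· * g ^ 2) e3.symm
  · rw [tendsto_iff_norm_sub_tendsto_zero]
    refine squeeze_zero (fun n => norm_nonneg _) (fun n => ?_)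
      (tendsto_pow_atTop_nhds_zero_of_lt_one (by norm_num : (0 : ℝ) ≤ 1 / 4)
        (by norm_num : (1 / 4 : ℝ) < 1))
    rw [Real.norm_eq_abs]
    exact hC n
  · intro s hs M hM H hH ε hε
    have h1 : ∀ X, count s (fun _ => True) X =
        Y17.X.count (fun D => Y687.MQ.AdmD D ∧ 0 < s * D) X := by
      intro X
      unfold count Y17.X.count
      simp only [hA, and_true]
    have hinj : Set.InjOn (fun m => Y17.X.star m M) (H : Set ℤ) := by
      intro m hm m' hm' h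
      exact Y17.X.star_inj (hH m hm) (hH m' hm') hM h
    have hcard : (H.image fun m => Y17.X.star m M).card = H.card :=
      Finset.card_image_of_injOn hinj
    have hG : ∀ x ∈ H.image (fun m => Y17.X.star m M), Y687.MQ.AdmD x := by
      intro x hx
      obtain ⟨m, hm, rfl⟩ := Finset.mem_image.1 hx
      exact (Y17.X.star_adm (hH m hm) hM).1
    have hlim := Y17.X.joint_of Y687.JQ.t_JDEN hs (H.image fun m => Y17.X.star m M) hG
      (fun D => AnRankZero D ∧ RankZeroShaTwo D) (fun D h _ => hQ D h)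
    rw [hcard] at hlim
    have hle : ∀ X, Y17.X.count (fun D => Y687.MQ.AdmD D ∧ 0 < s * D ∧
        ∀ x ∈ H.image (fun m => Y17.X.star m M), AnRankZero (Y17.X.star x D) ∧
          RankZeroShaTwo (Y17.X.star x D)) X ≤
        count s (fun D => ∀ m ∈ H, AnRankZero (star (star m M) D)) X := by
      intro X
      refine Y17.X.count_mono ?_ X
      rintro D ⟨h2, h3, h4⟩
      exact ⟨h2, h3, fun m hm => (h4 _ (Finset.mem_image_of_mem _ hm)).1⟩
    have hpos := (Y17.X.base_atTop hs).eventually_gt_atTop 0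
    have hev := hlim.eventually_const_lt
      (show Y703.CQ.c2 ^ H.card - ε < Y703.CQ.c2 ^ H.card by linarith)
    obtain ⟨X₀, hX₀⟩ := eventually_atTop.1 (hev.and hpos)
    refine ⟨X₀, fun X hX => ?_⟩
    obtain ⟨k1, k2⟩ := hX₀ X hX
    rw [h1 X]
    refine ⟨k2, ?_⟩
    have k3 : (0 : ℝ) < (Y17.X.count (fun D => Y687.MQ.AdmD D ∧ 0 < s * D) X : ℝ) := by
      exact_mod_cast k2
    have k4 := (lt_div_iff₀ k3).1 k1
    refine k4.le.trans ?_
    exact_mod_cast hle X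

end Pool.Agent.Results.MP_d17ed7_nt.ManyTwistsAtOnce
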